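import Pool.Agent.Helper23.MT.Goals

/-! # Packet MT-LIFT7 (MP_9d5c58_nt): 7-adic lifting of exponents -/

set_option autoImplicit false

namespace Pool.Agent.Helper93.MT

open Pool.Agent.Helper23.MT

theorem lift_pow {v H : ℕ} {e : ℤ} (h : (3 : ℤ) ^ H = 1 + 7 ^ (v + 1) * e) (he : ¬ (7 : ℤ) ∣ e)
    (i : ℕ) : ∃ e' : ℤ, ¬ (7 : ℤ) ∣ e' ∧ (3 : ℤ) ^ (H * 7 ^ i) = 1 + 7 ^ (v + 1 + i) * e' := by
  induction i with
  | zero => exact ⟨e, he, by simpa using h⟩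
  | succ i ih =>
    obtain ⟨e', he', h'⟩ := ih
    set t : ℤ := 7 ^ (v + i) with ht
    have e1 : (7 : ℤ) ^ (v + 1 + i) = 7 * t := by rw [ht]; ring
    have e2 : (7 : ℤ) ^ (v + 1 + (i + 1)) = 49 * t := by rw [ht]; ring
    refine ⟨e' + 7 * (3 * t * e' ^ 2 + 35 * t ^ 2 * e' ^ 3 + 245 * t ^ 3 * e' ^ 4
      + 1029 * t ^ 4 * e' ^ 5 + 2401 * t ^ 5 * e' ^ 6 + 2401 * t ^ 6 * e' ^ 7), ?_, ?_⟩
    · intro hd
      exact he' ((Int.dvd_add_left (Dvd.intro _ rfl)).1 hd)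
    · rw [pow_succ, ← mul_assoc, pow_mul, h', e1, e2]
      ring

theorem one_add_pow (x : ℤ) (i : ℕ) : ∃ r : ℤ, (1 + x) ^ i = 1 + i * x + x ^ 2 * r := by
  induction i with
  | zero => exact ⟨0, by simp⟩
  | succ i ih =>
    obtain ⟨r, hr⟩ := ih
    refine ⟨i + r + x * r, ?_⟩
    rw [pow_succ, hr]
    push_cast
    ring

theorem exists_digit (a t : ℤ) (ha : ¬ (7 : ℤ) ∣ a) : ∃ i : ℕ, i < 7 ∧ (7 : ℤ) ∣ t + i * a := by
  have key : ∀ a t : ZMod 7, a ≠ 0 → ∃ i : Fin 7, t + (i.val : ZMod 7) * a = 0 := by decide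
  have ha' : (a : ZMod 7) ≠ 0 := fun h => ha ((ZMod.intCast_zmod_eq_zero_iff_dvd a 7).1 h)
  obtain ⟨i, hi⟩ := key a t ha'
  refine ⟨i.val, i.isLt, ?_⟩
  have h2 : ((t + (i.val : ℕ) * a : ℤ) : ZMod 7) = 0 := by
    push_cast
    exact hi
  exact (ZMod.intCast_zmod_eq_zero_iff_dvd _ 7).1 h2

theorem gLIFT7 : GLIFT7 := by
  intro v H l e u w h he hw hd K
  have key : ∀ i : ℕ, ∃ j < 7 ^ i, (7 : ℤ) ^ (v + 1 + i) ∣ 3 ^ (l + j * H) * u - w := by
    intro i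
    induction i with
    | zero => exact ⟨0, by norm_num, by simpa using hd⟩
    | succ i ih =>
      obtain ⟨j, hj, t, ht⟩ := ih
      obtain ⟨e', he', h'⟩ := lift_pow h he i
      have hp : Prime (7 : ℤ) := by norm_num
      have ha : ¬ (7 : ℤ) ∣ e' * w := fun hh => by
        rcases hp.dvd_or_dvd hh with h1 | h1
        · exact he' h1
        · exact hw h1
      obtain ⟨k, hk, s, hs⟩ := exists_digit (e' * w) t ha
      refine ⟨j + k * 7 ^ i, ?_, ?_⟩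
      · rw [pow_succ]
        have : k * 7 ^ i ≤ 6 * 7 ^ i := Nat.mul_le_mul_right _ (by omega)
        omega
      · obtain ⟨r, hr⟩ := one_add_pow (7 ^ (v + 1 + i) * e') k
        have e1 : (3 : ℤ) ^ (l + (j + k * 7 ^ i) * H) * u
            = (3 ^ (l + j * H) * u) * (1 + 7 ^ (v + 1 + i) * e') ^ k := by
          rw [← h', ← pow_mul, mul_right_comm, ← pow_add]
          congr 2
          ring
        have e2 : (3 : ℤ) ^ (l + j * H) * u = w + 7 ^ (v + 1 + i) * t := by linarith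
        set q : ℤ := 7 ^ (v + i) with hq
        have e3 : (7 : ℤ) ^ (v + 1 + i) = 7 * q := by rw [hq]; ring
        have e4 : (7 : ℤ) ^ (v + 1 + (i + 1)) = 49 * q := by rw [hq]; ring
        rw [e1, e2, hr, e3, e4]
        refine ⟨s + q * t * k * e' + q * e' ^ 2 * r * (w + 7 * q * t), ?_⟩
        linear_combination (7 * q) * hs
  rcases le_or_gt K (v + 1) with hK | hK
  · exact ⟨0, Nat.zero_le _, by
      rw [Nat.zero_mul, Nat.add_zero]
      exact (pow_dvd_pow 7 hK).trans hd⟩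
  · obtain ⟨i, rfl⟩ : ∃ i, K = v + 1 + i := ⟨K - (v + 1), by omega⟩
    obtain ⟨j, hj, hd'⟩ := key i
    exact ⟨j, hj.le.trans (Nat.pow_le_pow_right (by norm_num) (by omega)), hd'⟩

end Pool.Agent.Helper93.MT
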